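import Pool.Agent.Run7.h178.SL.Stm

/-! Project SL (helper178), piece GAUSS (helper216): row operations over the integers by slides. -/

set_option autoImplicit false

open Pool.Agent.R655.LI

namespace Run7.h216.SL

open Run7.h178.SL

section

variable {R M : Type} [DecidableEq R] [AddCommGroup M]

/-- row operations -/
inductive MStep : (R → M) → (R → M) → Prop
  | add (A : R → M) (j k : R) (h : j ≠ k) : MStep A (Function.update A j (A j + A k))
  | neg (A : R → M) (j : R) : MStep A (Function.update A j (-A j))

/-- finitely many row operations -/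
def MEq (A A' : R → M) : Prop := Relation.ReflTransGen MStep A A'

theorem MEq.refl (A : R → M) : MEq A A := Relation.ReflTransGen.refl

theorem MEq.trans {A B C : R → M} (h : MEq A B) (h' : MEq B C) : MEq A C :=
  Relation.ReflTransGen.trans h h'

theorem MEq.add (A : R → M) {j k : R} (h : j ≠ k) : MEq A (Function.update A j (A j + A k)) :=
  Relation.ReflTransGen.single (MStep.add A j k h)

theorem MEq.neg (A : R → M) (j : R) : MEq A (Function.update A j (-A j)) :=
  Relation.ReflTransGen.single (MStep.neg A j)

theorem MEq.sub (A : R → M) {j k : R} (h : j ≠ k) : MEq A (Function.update A j (A j - A k)) := by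
  have h1 := MEq.neg A k
  have h2 := MEq.add (Function.update A k (-A k)) h
  have h3 := MEq.neg (Function.update (Function.update A k (-A k)) j
    (Function.update A k (-A k) j + Function.update A k (-A k) k)) k
  have h4 := (h1.trans h2).trans h3
  convert h4 using 1
  funext i
  by_cases hj : i = j
  · subst hj
    simp [h, sub_eq_add_neg]
  · by_cases hk : i = k
    · subst hk
      simp [hj]
    · simp [hj, hk]

theorem MStep.span [Module ℤ M] {A A' : R → M} (h : MStep A A') :
    Submodule.span ℤ (Set.range A) ≤ Submodule.span ℤ (Set.range A') := by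
  rw [Submodule.span_le]
  rintro _ ⟨i, rfl⟩
  cases h with
  | add j k hjk =>
    by_cases hi : i = j
    · subst hi
      have h1 : A i = Function.update A i (A i + A k) i - Function.update A i (A i + A k) k := by
        simp [Ne.symm hjk]
      have h2 := Submodule.sub_mem (Submodule.span ℤ (Set.range (Function.update A i (A i + A k))))
        (Submodule.subset_span ⟨i, rfl⟩) (Submodule.subset_span ⟨k, rfl⟩)
      rw [← h1] at h2
      exact h2
    · have h1 : A i = Function.update A j (A j + A k) i := by simp [hi]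
      rw [h1]
      exact Submodule.subset_span ⟨i, rfl⟩
  | neg j =>
    by_cases hi : i = j
    · subst hi
      have h1 : A i = -Function.update A i (-A i) i := by simp
      have h2 := Submodule.neg_mem (Submodule.span ℤ (Set.range (Function.update A i (-A i))))
        (Submodule.subset_span ⟨i, rfl⟩)
      rw [← h1] at h2
      exact h2
    · have h1 : A i = Function.update A j (-A j) i := by simp [hi]
      rw [h1]
      exact Submodule.subset_span ⟨i, rfl⟩

theorem MEq.span [Module ℤ M] {A A' : R → M} (h : MEq A A')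
    (ht : Submodule.span ℤ (Set.range A) = ⊤) : Submodule.span ℤ (Set.range A') = ⊤ := by
  induction h with
  | refl => exact ht
  | tail _ h2 ih => exact top_le_iff.1 (ih ▸ h2.span)

end

section

variable {V R : Type} [DecidableEq R]

/-- row operations are induced by slides -/
theorem lift_step {A A' : R → (V →₀ ℤ)} (h : MStep A A') (r : R → FreeGroup V)
    (hr : ∀ i, (expSum V (r i)).toAdd = A i) :
    ∃ r', QStep r r' ∧ ∀ i, (expSum V (r' i)).toAdd = A' i := by
  cases h with
  | add j k hjk =>
    refine ⟨_, QStep.mul r j k hjk, fun i => ?_⟩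
    by_cases hi : i = j
    · subst hi
      simp only [Function.update_self, map_mul, toAdd_mul, hr]
    · simp only [Function.update_of_ne hi, hr]
  | neg j =>
    refine ⟨_, QStep.inv r j, fun i => ?_⟩
    by_cases hi : i = j
    · subst hi
      simp only [Function.update_self, map_inv, toAdd_inv, hr]
    · simp only [Function.update_of_ne hi, hr]

theorem lift_eq {A A' : R → (V →₀ ℤ)} (h : MEq A A') (r : R → FreeGroup V)
    (hr : ∀ i, (expSum V (r i)).toAdd = A i) :
    ∃ r', QEq r r' ∧ ∀ i, (expSum V (r' i)).toAdd = A' i := by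
  induction h with
  | refl => exact ⟨r, Relation.ReflTransGen.refl, hr⟩
  | tail _ h2 ih =>
    obtain ⟨r1, h3, h4⟩ := ih
    obtain ⟨r2, h5, h6⟩ := lift_step h2 r1 h4
    exact ⟨r2, Relation.ReflTransGen.tail h3 h5, h6⟩

/-- the columns of `D` are unit vectors -/
def QD (β : R ≃ V) (D : Finset R) (A : R → (V →₀ ℤ)) : Prop :=
  ∀ i, ∀ k ∈ D, A i (β k) = if i = k then 1 else 0

variable [Fintype R]

/-- the size of a column -/
def sz (v : V) (A : R → (V →₀ ℤ)) : ℕ := ∑ i, (A i v).natAbs

theorem sz_update (v : V) (A : R → (V →₀ ℤ)) (j : R) (w : V →₀ ℤ)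
    (h : (w v).natAbs < (A j v).natAbs) : sz v (Function.update A j w) < sz v A := by
  unfold sz
  refine Finset.sum_lt_sum (fun i _ => ?_) ⟨j, Finset.mem_univ j, ?_⟩
  · by_cases hi : i = j
    · subst hi
      rw [Function.update_self]
      exact h.le
    · rw [Function.update_of_ne hi]
  · rw [Function.update_self]
    exact h

omit [Fintype R] in
theorem QD_update {β : R ≃ V} {D : Finset R} {A : R → (V →₀ ℤ)} (hA : QD β D A) (j : R)
    (w : V →₀ ℤ) (hw : ∀ k ∈ D, w (β k) = A j (β k)) : QD β D (Function.update A j w) := by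
  intro i k hk
  by_cases hi : i = j
  · subst hi
    rw [Function.update_self, hw k hk]
    exact hA i k hk
  · rw [Function.update_of_ne hi]
    exact hA i k hk

omit [Fintype R] in
theorem col_zero {β : R ≃ V} {D : Finset R} {A : R → (V →₀ ℤ)} (hA : QD β D A) {i k : R}
    (hi : i ∉ D) (hk : k ∈ D) : A i (β k) = 0 := by
  rw [hA i k hk, if_neg]
  rintro rfl
  exact hi hk

/-- one more column -/
theorem step (β : R ≃ V) (D : Finset R) (k : R) (hk : k ∉ D) (A : R → (V →₀ ℤ))
    (hspan : Submodule.span ℤ (Set.range A) = ⊤) (hA : QD β D A) :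
    ∃ A', MEq A A' ∧ QD β (insert k D) A' := by
  classical
  -- a minimal matrix
  have hex : ∃ n, ∃ B, MEq A B ∧ QD β D B ∧ sz (β k) B = n := ⟨_, A, MEq.refl A, hA, rfl⟩
  obtain ⟨B, hAB, hB, hBn⟩ := Nat.find_spec hex
  have hmin : ∀ B', MEq A B' → QD β D B' → sz (β k) B ≤ sz (β k) B' := by
    intro B' h1 h2
    rw [hBn]
    exact Nat.find_min' hex ⟨B', h1, h2, rfl⟩
  -- entries of the other rows are smaller
  have hsmall : ∀ i', i' ∉ D → B i' (β k) ≠ 0 → ∀ i, i ≠ i' →
      (B i (β k)).natAbs < (B i' (β k)).natAbs := by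
    intro i' hi' hne i hii
    by_contra hc
    have hz : ∀ k' ∈ D, B i' (β k') = 0 := fun k' hk' => col_zero hB hi' hk'
    have h1 : (B i (β k) + B i' (β k)).natAbs < (B i (β k)).natAbs ∨
        (B i (β k) - B i' (β k)).natAbs < (B i (β k)).natAbs := by omega
    rcases h1 with h1 | h1
    · have h2 := hmin _ (hAB.trans (MEq.add B hii)) (QD_update hB i _ fun k' hk' => by
        rw [Finsupp.add_apply, hz k' hk', add_zero])
      have h3 := sz_update (β k) B i (B i + B i') (by rw [Finsupp.add_apply]; exact h1)
      omega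
    · have h2 := hmin _ (hAB.trans (MEq.sub B hii)) (QD_update hB i _ fun k' hk' => by
        rw [Finsupp.sub_apply, hz k' hk', sub_zero])
      have h3 := sz_update (β k) B i (B i - B i') (by rw [Finsupp.sub_apply]; exact h1)
      omega
  -- unimodularity
  have hBs := hAB.span hspan
  obtain ⟨c, hc⟩ : ∃ c : R → ℤ, ∑ i, c i • B i = Finsupp.single (β k) 1 := by
    have h1 : Finsupp.single (β k) (1 : ℤ) ∈ Submodule.span ℤ (Set.range B) := by
      rw [hBs]
      trivial
    exact (Submodule.mem_span_range_iff_exists_fun ℤ).1 h1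
  have hcv : ∀ v, ∑ i, c i * B i v = Finsupp.single (β k) (1 : ℤ) v := by
    intro v
    rw [← hc, Finsupp.finsetSum_apply]
    exact Finset.sum_congr rfl fun i _ => by simp
  have hcD : ∀ k' ∈ D, c k' = 0 := by
    intro k' hk'
    have h1 := hcv (β k')
    rw [Finsupp.single_apply, if_neg (by
      intro h
      exact hk (β.injective h ▸ hk'))] at h1
    rw [← h1]
    rw [Finset.sum_eq_single k']
    · rw [hB k' k' hk', if_pos rfl, mul_one]
    · intro i _ hi
      rw [hB i k' hk', if_neg hi, mul_zero]
    · intro h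
      exact absurd (Finset.mem_univ _) h
  have h1k := hcv (β k)
  rw [Finsupp.single_eq_same] at h1k
  obtain ⟨i₀, hi₀, hne⟩ : ∃ i₀, i₀ ∉ D ∧ B i₀ (β k) ≠ 0 := by
    by_contra hcon
    push Not at hcon
    have h2 : ∑ i, c i * B i (β k) = 0 := by
      refine Finset.sum_eq_zero fun i _ => ?_
      by_cases hi : i ∈ D
      · rw [hcD i hi, zero_mul]
      · rw [hcon i hi, mul_zero]
    omega
  have hone : c i₀ * B i₀ (β k) = 1 := by
    rw [← h1k, Finset.sum_eq_single i₀]
    · intro i _ hi
      by_cases hiD : i ∈ D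
      · rw [hcD i hiD, zero_mul]
      · have h2 : B i (β k) = 0 := by
          by_contra hne'
          have h3 := hsmall i₀ hi₀ hne i hi
          have h4 := hsmall i hiD hne' i₀ (Ne.symm hi)
          omega
        rw [h2, mul_zero]
    · intro h
      exact absurd (Finset.mem_univ _) h
  have hunit : B i₀ (β k) = 1 ∨ B i₀ (β k) = -1 :=
    Int.isUnit_iff.1 (IsUnit.of_mul_eq_one (c i₀) (by rw [mul_comm]; exact hone))
  have hzero : ∀ i, i ≠ i₀ → B i (β k) = 0 := by
    intro i hi
    have h2 := hsmall i₀ hi₀ hne i hi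
    have h3 : (B i₀ (β k)).natAbs = 1 := by
      rcases hunit with h | h <;> rw [h] <;> rfl
    omega
  -- the entry in the row `k`
  obtain ⟨B', hBB', hB', hu', hz'⟩ : ∃ B', MEq A B' ∧ QD β D B' ∧
      (B' k (β k) = 1 ∨ B' k (β k) = -1) ∧ ∀ i, i ≠ k → B' i (β k) = 0 := by
    by_cases hik : i₀ = k
    · subst hik
      exact ⟨B, hAB, hB, hunit, hzero⟩
    · have hki : k ≠ i₀ := Ne.symm hik
      have e1 := MEq.add B hki
      have e2 := MEq.sub (Function.update B k (B k + B i₀)) hik
      refine ⟨_, (hAB.trans e1).trans e2, ?_, ?_, ?_⟩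
      · refine QD_update (QD_update hB k _ fun k' hk' => ?_) i₀ _ fun k' hk' => ?_
        · rw [Finsupp.add_apply, col_zero hB hi₀ hk', add_zero]
        · rw [Finsupp.sub_apply, Function.update_self, Finsupp.add_apply, col_zero hB hi₀ hk',
            col_zero hB hk hk', add_zero, sub_zero]
      · rw [Function.update_of_ne hki, Function.update_self, Finsupp.add_apply, hzero k hki,
          zero_add]
        exact hunit
      · intro i hi
        by_cases hii : i = i₀
        · subst hii
          rw [Function.update_self, Finsupp.sub_apply, Function.update_of_ne hi,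
            Function.update_self, Finsupp.add_apply, hzero k hki, zero_add, sub_self]
        · rw [Function.update_of_ne hii, Function.update_of_ne hi]
          exact hzero i hii
  -- the sign
  obtain ⟨B₂, hBB₂, hB₂, hu₂, hz₂⟩ : ∃ B', MEq A B' ∧ QD β D B' ∧
      B' k (β k) = 1 ∧ ∀ i, i ≠ k → B' i (β k) = 0 := by
    rcases hu' with h | h
    · exact ⟨B', hBB', hB', h, hz'⟩
    · refine ⟨_, hBB'.trans (MEq.neg B' k), QD_update hB' k _ fun k' hk' => ?_, ?_, ?_⟩
      · rw [Finsupp.neg_apply, col_zero hB' hk hk', neg_zero]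
      · rw [Function.update_self, Finsupp.neg_apply, h, neg_neg]
      · intro i hi
        rw [Function.update_of_ne hi]
        exact hz' i hi
  refine ⟨B₂, hBB₂, ?_⟩
  intro i k' hk'
  rcases Finset.mem_insert.1 hk' with h | h
  · subst h
    by_cases hi : i = k'
    · subst hi
      rw [if_pos rfl]
      exact hu₂
    · rw [if_neg hi]
      exact hz₂ i hi
  · exact hB₂ i k' h

theorem all_columns (β : R ≃ V) (A : R → (V →₀ ℤ))
    (hspan : Submodule.span ℤ (Set.range A) = ⊤) (D : Finset R) :
    ∃ A', MEq A A' ∧ QD β D A' := by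
  induction D using Finset.induction_on with
  | empty => exact ⟨A, MEq.refl A, fun i k hk => absurd hk (Finset.notMem_empty k)⟩
  | insert k D hk ih =>
    obtain ⟨A1, h1, h2⟩ := ih
    obtain ⟨A2, h3, h4⟩ := step β D k hk A1 (h1.span hspan) h2
    exact ⟨A2, h1.trans h3, h4⟩

end

theorem t_GAUSS' : S_GAUSS := by
  classical
  intro V R _ _ _ β r hspan
  obtain ⟨A', h1, h2⟩ := all_columns β (fun i => (expSum V (r i)).toAdd) hspan Finset.univ
  obtain ⟨r', h3, h4⟩ := lift_eq h1 r fun i => rfl
  refine ⟨r', h3, fun i => ?_⟩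
  rw [h4]
  ext v
  obtain ⟨k, rfl⟩ := β.surjective v
  rw [h2 i k (Finset.mem_univ k), Finsupp.single_apply]
  by_cases h : i = k
  · rw [if_pos h, if_pos (by rw [h])]
  · rw [if_neg h, if_neg fun hh => h (β.injective hh)]

/-- the form with the listed hypothesis (which is not needed) -/
theorem t_GAUSS : S_GAUSS := t_GAUSS'

end Run7.h216.SL
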